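import Pool.Agent.K3h86.LP.Stm

/-!
Project LP (helper86), brick ASY: the final numerical estimate.
-/

set_option autoImplicit false

namespace Pool.Agent.K3h77.LP

open Finset Filter Real Pool.Agent.K3h86.LP

lemma sum_succ_cast (J : ℕ) : ∑ j ∈ range J, ((j : ℝ) + 1) = (J : ℝ) * (J + 1) / 2 := by
  induction J with
  | zero => simp
  | succ n ih => rw [sum_range_succ, ih]; push_cast; ring

/-- The estimate of one summand. -/
lemma term_le {C ρ η θ δ x t lD r T W d : ℝ} (hC : 0 < C) (hρ : 1 < ρ) (hη : 0 < η)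
    (hx : 2 ≤ x) (ht : 1 ≤ t) (hlD : η * t ≤ lD) (hlD' : lD ≤ t)
    (hd' : d ^ 2 ≤ x ^ (2 * θ)) (hr : 0 < r) (hr' : r ≤ 2 * ρ * x ^ δ)
    (hT : 0 ≤ T) (hTW : T ≤ W) :
    T * ((4 * x ^ 2 * (ρ - 1) + 2 * x * r) / (2 * (x - 1) * lD) +
      C * √x * t ^ 2 * (d ^ 2 + (2 * r) * (1 + lD) ^ 3)) ≤
    T * (2 * (ρ - 1) * (x + 2) / (η * t)) +
      W * (4 * ρ * x ^ δ / η + C * √x * t ^ 2 * (x ^ (2 * θ) + 4 * ρ * x ^ δ * (1 + t) ^ 3)) := by
  have hx1 : 0 < x - 1 := by linarith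
  have hηt : 0 < η * t := by positivity
  have hlD0 : 0 < lD := lt_of_lt_of_le hηt hlD
  have hxδ : 0 < x ^ δ := rpow_pos_of_pos (by linarith) _
  have h1 : (4 * x ^ 2 * (ρ - 1)) / (2 * (x - 1) * lD) ≤ 2 * (ρ - 1) * (x + 2) / (η * t) := by
    rw [div_le_div_iff₀ (by positivity) hηt]
    have e1 : x ^ 2 ≤ (x + 2) * (x - 1) := by nlinarith
    have hρ1 : 0 < ρ - 1 := by linarith
    calc 4 * x ^ 2 * (ρ - 1) * (η * t) ≤ 4 * ((x + 2) * (x - 1)) * (ρ - 1) * lD := by gcongr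
      _ = 2 * (ρ - 1) * (x + 2) * (2 * (x - 1) * lD) := by ring
  have h2 : (2 * x * r) / (2 * (x - 1) * lD) ≤ 4 * ρ * x ^ δ / η := by
    rw [div_le_div_iff₀ (by positivity) hη]
    have e1 : x ≤ 2 * (x - 1) := by linarith
    have e2 : η ≤ lD := by nlinarith
    calc 2 * x * r * η ≤ 2 * (2 * (x - 1)) * (2 * ρ * x ^ δ) * lD := by gcongr
      _ = 4 * ρ * x ^ δ * (2 * (x - 1) * lD) := by ring
  have h3 : C * √x * t ^ 2 * (d ^ 2 + (2 * r) * (1 + lD) ^ 3) ≤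
      C * √x * t ^ 2 * (x ^ (2 * θ) + 4 * ρ * x ^ δ * (1 + t) ^ 3) := by
    have e1 : (2 * r) * (1 + lD) ^ 3 ≤ 4 * ρ * x ^ δ * (1 + t) ^ 3 := by
      calc (2 * r) * (1 + lD) ^ 3 ≤ (2 * (2 * ρ * x ^ δ)) * (1 + t) ^ 3 := by gcongr
        _ = _ := by ring
    gcongr
  have hW : 0 ≤ W := hT.trans hTW
  have hE : 0 ≤ 4 * ρ * x ^ δ / η + C * √x * t ^ 2 * (x ^ (2 * θ) + 4 * ρ * x ^ δ * (1 + t) ^ 3) := by
    have : 0 ≤ x ^ (2 * θ) := rpow_nonneg (by linarith) _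
    positivity
  rw [add_div]
  calc T * ((4 * x ^ 2 * (ρ - 1)) / (2 * (x - 1) * lD) + 2 * x * r / (2 * (x - 1) * lD) +
        C * √x * t ^ 2 * (d ^ 2 + (2 * r) * (1 + lD) ^ 3))
      ≤ T * (2 * (ρ - 1) * (x + 2) / (η * t) + (4 * ρ * x ^ δ / η +
        C * √x * t ^ 2 * (x ^ (2 * θ) + 4 * ρ * x ^ δ * (1 + t) ^ 3))) := by
        apply mul_le_mul_of_nonneg_left _ hT
        linarith
    _ = T * (2 * (ρ - 1) * (x + 2) / (η * t)) + T * (4 * ρ * x ^ δ / η +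
        C * √x * t ^ 2 * (x ^ (2 * θ) + 4 * ρ * x ^ δ * (1 + t) ^ 3)) := by ring
    _ ≤ _ := by gcongr

/-- The main term. -/
lemma main_le {δ ρ η x t u L A : ℝ} (hδ : 0 < δ) (hρ : 1 < ρ) (hη : 0 < η)
    (hx : 2 ≤ x) (ht : 1 ≤ t) (hL : 0 < L) (hL' : ρ - 1 ≤ ρ * L) (hA : 0 < A)
    (hu : 0 ≤ u) (hu' : u ≤ δ * t + A) :
    (u / L * (log 2 + t) + L * (u / L * (u / L + 1) / 2)) * (2 * (ρ - 1) * (x + 2) / (η * t)) ≤
      ρ / η * ((δ ^ 2 + 2 * δ) * t + 2 * ((δ * log 2 + A + (δ * (A + L) + δ * A) / 2) +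
        (A * log 2 + A * (A + L) / 2))) * (x + 2) := by
  have hl2 : 0 < log 2 := log_pos (by norm_num)
  have hηt : 0 < η * t := by positivity
  set P : ℝ := u * (log 2 + t) + u * (u + L) / 2 with hP
  have e0 : u / L * (log 2 + t) + L * (u / L * (u / L + 1) / 2) = P / L := by
    rw [hP]; field_simp
  have hP0 : 0 ≤ P := by positivity
  have e1 : P ≤ (δ * t + A) * (log 2 + t) + (δ * t + A) * (δ * t + A + L) / 2 := by
    rw [hP]; gcongr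
  set β : ℝ := δ * log 2 + A + (δ * (A + L) + δ * A) / 2 with hβ
  set γ : ℝ := A * log 2 + A * (A + L) / 2 with hγ
  have hγ0 : 0 < γ := by positivity
  have e2 : P ≤ t * ((δ ^ 2 + 2 * δ) / 2 * t + (β + γ)) := by
    have : (δ * t + A) * (log 2 + t) + (δ * t + A) * (δ * t + A + L) / 2 =
        (δ ^ 2 + 2 * δ) / 2 * t ^ 2 + β * t + γ := by
      rw [hβ, hγ]; ring
    rw [this] at e1
    nlinarith
  rw [e0]
  have e3 : P / L * (2 * (ρ - 1) * (x + 2) / (η * t)) = (P / (η * t)) * (2 * ((ρ - 1) / L) * (x + 2)) := by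
    field_simp
  have e4 : (ρ - 1) / L ≤ ρ := by rw [div_le_iff₀ hL]; exact hL'
  have e5 : P / (η * t) ≤ ((δ ^ 2 + 2 * δ) / 2 * t + (β + γ)) / η := by
    rw [div_le_div_iff₀ hηt hη]
    calc P * η ≤ t * ((δ ^ 2 + 2 * δ) / 2 * t + (β + γ)) * η := by gcongr
      _ = ((δ ^ 2 + 2 * δ) / 2 * t + (β + γ)) * (η * t) := by ring
  rw [e3]
  have hβ0 : 0 < β := by positivity
  have hρL : 0 ≤ (ρ - 1) / L := div_nonneg (by linarith) hL.le
  calc P / (η * t) * (2 * ((ρ - 1) / L) * (x + 2))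
      ≤ ((δ ^ 2 + 2 * δ) / 2 * t + (β + γ)) / η * (2 * ρ * (x + 2)) := by gcongr
    _ = ρ / η * ((δ ^ 2 + 2 * δ) * t + 2 * (β + γ)) * (x + 2) := by ring

/-- The error terms of the blocks. -/
lemma err_le {C ρ η θ δ x t : ℝ} (hC : 0 < C) (hρ : 1 < ρ) (hη : 0 < η)
    (hθ : 0 < θ) (hδθ : δ ≤ 2 * θ) (hx : 2 ≤ x) (ht : 1 ≤ t) :
    4 * ρ * x ^ δ / η + C * √x * t ^ 2 * (x ^ (2 * θ) + 4 * ρ * x ^ δ * (1 + t) ^ 3) ≤
      (4 * ρ / η + C * (1 + 4 * ρ)) * (x ^ (1 / 2 + 2 * θ) * (1 + t) ^ 5) := by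
  have hx0 : 0 < x := by linarith
  have hx1 : 1 ≤ x := by linarith
  have h1 : x ^ δ ≤ x ^ (1 / 2 + 2 * θ) := rpow_le_rpow_of_exponent_le hx1 (by linarith)
  have h2 : √x * x ^ (2 * θ) = x ^ (1 / 2 + 2 * θ) := by rw [sqrt_eq_rpow, ← rpow_add hx0]
  have h3 : √x * x ^ δ ≤ x ^ (1 / 2 + 2 * θ) := by
    rw [← h2]
    exact mul_le_mul_of_nonneg_left (rpow_le_rpow_of_exponent_le hx1 hδθ) (sqrt_nonneg _)
  have hX : 0 < x ^ (1 / 2 + 2 * θ) := rpow_pos_of_pos hx0 _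
  set X := x ^ (1 / 2 + 2 * θ) with hXd
  have hT1 : (1 : ℝ) ≤ (1 + t) ^ 5 := one_le_pow₀ (by linarith)
  have hT3 : (1 : ℝ) ≤ (1 + t) ^ 3 := one_le_pow₀ (by linarith)
  have ht2 : t ^ 2 ≤ (1 + t) ^ 2 := by gcongr; linarith
  have e1 : 4 * ρ * x ^ δ / η ≤ 4 * ρ / η * (X * (1 + t) ^ 5) := by
    calc 4 * ρ * x ^ δ / η = 4 * ρ / η * x ^ δ := by ring
      _ ≤ 4 * ρ / η * (X * (1 + t) ^ 5) := by
        gcongr
        nlinarith
  have e2 : C * √x * t ^ 2 * (x ^ (2 * θ) + 4 * ρ * x ^ δ * (1 + t) ^ 3) ≤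
      C * (1 + 4 * ρ) * (X * (1 + t) ^ 5) := by
    calc C * √x * t ^ 2 * (x ^ (2 * θ) + 4 * ρ * x ^ δ * (1 + t) ^ 3)
        = C * t ^ 2 * (√x * x ^ (2 * θ) + 4 * ρ * (√x * x ^ δ) * (1 + t) ^ 3) := by ring
      _ ≤ C * (1 + t) ^ 2 * (X * (1 + t) ^ 3 + 4 * ρ * X * (1 + t) ^ 3) := by
        rw [h2]
        gcongr
        nlinarith
      _ = _ := by ring
  calc _ ≤ 4 * ρ / η * (X * (1 + t) ^ 5) + C * (1 + 4 * ρ) * (X * (1 + t) ^ 5) := add_le_add e1 e2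
    _ = _ := by ring

/-- The last term. -/
lemma last_le {C η θ δ x t lD d : ℝ} (hC : 0 < C) (hη : 0 < η) (hδ : 0 < δ)
    (hδθ : δ ≤ 2 * θ) (hx : 2 ≤ x) (ht : 1 ≤ t) (hlD : η * t ≤ lD) (hlD' : lD ≤ t)
    (hd' : d ^ 2 ≤ x ^ (2 * θ)) :
    (1 + δ) * t * (x ^ (1 - δ) * x ^ (1 + δ) / (2 * (x - 1) * lD) +
      C * √x * t ^ 2 * (d ^ 2 + x ^ δ * (1 + lD) ^ 3)) ≤
    (1 + δ) / (2 * η) * (x + 2) + 2 * (1 + δ) * C * (x ^ (1 / 2 + 2 * θ) * (1 + t) ^ 6) := by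
  have hx0 : 0 < x := by linarith
  have hx1 : 1 ≤ x := by linarith
  have hx1' : 0 < x - 1 := by linarith
  have h2 : √x * x ^ (2 * θ) = x ^ (1 / 2 + 2 * θ) := by rw [sqrt_eq_rpow, ← rpow_add hx0]
  have h3 : √x * x ^ δ ≤ x ^ (1 / 2 + 2 * θ) := by
    rw [← h2]
    exact mul_le_mul_of_nonneg_left (rpow_le_rpow_of_exponent_le hx1 hδθ) (sqrt_nonneg _)
  have hX : 0 < x ^ (1 / 2 + 2 * θ) := rpow_pos_of_pos hx0 _
  set X := x ^ (1 / 2 + 2 * θ) with hXd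
  have hηt : 0 < η * t := by positivity
  have hlD0 : 0 < lD := lt_of_lt_of_le hηt hlD
  have e0 : x ^ (1 - δ) * x ^ (1 + δ) = x ^ 2 := by
    rw [← rpow_add hx0, ← rpow_natCast]
    norm_num
  have e1 : t * (x ^ 2 / (2 * (x - 1) * lD)) ≤ 1 / (2 * η) * (x + 2) := by
    have k1 : x ^ 2 ≤ (x + 2) * (x - 1) := by nlinarith
    have k2 : t * (x ^ 2 / (2 * (x - 1) * lD)) = (t * x ^ 2) / (2 * (x - 1) * lD) := by ring
    have k3 : 1 / (2 * η) * (x + 2) = (x + 2) / (2 * η) := by ring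
    rw [k2, k3, div_le_div_iff₀ (by positivity) (by positivity)]
    calc t * x ^ 2 * (2 * η) ≤ t * ((x + 2) * (x - 1)) * (2 * η) := by gcongr
      _ = 2 * ((x + 2) * (x - 1)) * (η * t) := by ring
      _ ≤ 2 * ((x + 2) * (x - 1)) * lD := by gcongr
      _ = (x + 2) * (2 * (x - 1) * lD) := by ring
  have hT3 : (1 : ℝ) ≤ (1 + t) ^ 3 := one_le_pow₀ (by linarith)
  have e2 : t * (C * √x * t ^ 2 * (d ^ 2 + x ^ δ * (1 + lD) ^ 3)) ≤ 2 * C * (X * (1 + t) ^ 6) := by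
    calc t * (C * √x * t ^ 2 * (d ^ 2 + x ^ δ * (1 + lD) ^ 3))
        ≤ t * (C * √x * t ^ 2 * (x ^ (2 * θ) + x ^ δ * (1 + t) ^ 3)) := by gcongr
      _ = C * t ^ 3 * (√x * x ^ (2 * θ) + (√x * x ^ δ) * (1 + t) ^ 3) := by ring
      _ ≤ C * (1 + t) ^ 3 * (X * (1 + t) ^ 3 + X * (1 + t) ^ 3) := by
        rw [h2]
        gcongr
        · linarith
        · nlinarith
      _ = _ := by ring
  rw [e0]
  calc (1 + δ) * t * (x ^ 2 / (2 * (x - 1) * lD) + C * √x * t ^ 2 * (d ^ 2 + x ^ δ * (1 + lD) ^ 3))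
      = (1 + δ) * (t * (x ^ 2 / (2 * (x - 1) * lD)) +
        t * (C * √x * t ^ 2 * (d ^ 2 + x ^ δ * (1 + lD) ^ 3))) := by ring
    _ ≤ (1 + δ) * (1 / (2 * η) * (x + 2) + 2 * C * (X * (1 + t) ^ 6)) := by gcongr
    _ = _ := by ring

/-- The estimate with explicit parameters. -/
lemma total_le {C ρ η θ δ : ℝ} (hC : 0 < C) (hρ : 1 < ρ) (hη : 0 < η) (hθ : 0 < θ)
    (hδ : 0 < δ) (hδθ : δ ≤ 2 * θ) : ∃ K : ℝ, 0 < K ∧ ∀ p J D : ℕ, (2 : ℝ) ≤ p → 1 ≤ log p →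
    η * log p ≤ log D → log D ≤ log p → (D : ℝ) ^ 2 ≤ (p : ℝ) ^ (2 * θ) →
    J * log ρ ≤ δ * log p + (log 2 + log ρ) → ρ ^ J ≤ 2 * ρ * (p : ℝ) ^ δ → log p ≤ p →
    ∑ j ∈ range J, Real.log (2 * p * ρ ^ (j + 1)) *
        ((2 * (p : ℝ) / ρ ^ j - 2 * p / ρ ^ (j + 1) + 1) * (2 * p * ρ ^ (j + 1)) /
            (2 * ((p : ℝ) - 1) * Real.log D) +
          C * Real.sqrt p * (Real.log p) ^ 2 * ((D : ℝ) ^ 2 + (2 * ρ ^ (j + 1)) * (1 + Real.log D) ^ 3)) +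
      (1 + δ) * Real.log p *
        ((p : ℝ) ^ (1 - δ) * (p : ℝ) ^ (1 + δ) / (2 * ((p : ℝ) - 1) * Real.log D) +
          C * Real.sqrt p * (Real.log p) ^ 2 * ((D : ℝ) ^ 2 + (p : ℝ) ^ δ * (1 + Real.log D) ^ 3)) ≤
    (δ ^ 2 + 2 * δ) * ρ / η * p * log p +
      K * (p + (p : ℝ) ^ (1 / 2 + 2 * θ) * (1 + log p) ^ 7) := by
  have hL : 0 < log ρ := log_pos hρ
  have hl2 : 0 < log 2 := log_pos (by norm_num)
  have hL' : ρ - 1 ≤ ρ * log ρ := by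
    have h := one_sub_inv_le_log_of_pos (show 0 < ρ by linarith)
    have h2 := mul_le_mul_of_nonneg_left h (show 0 ≤ ρ by linarith)
    have h3 : ρ * (1 - ρ⁻¹) = ρ - 1 := by field_simp
    linarith
  set L := log ρ with hLd
  set A := log 2 + L with hAd
  have hA : 0 < A := by positivity
  set B : ℝ := 2 * ((δ * log 2 + A + (δ * (A + L) + δ * A) / 2) +
        (A * log 2 + A * (A + L) / 2)) with hB
  have hB0 : 0 < B := by positivity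
  set K1 : ℝ := (δ + A) / L with hK1
  set K2 : ℝ := log 2 + 1 + δ + A with hK2
  set K3 : ℝ := 4 * ρ / η + C * (1 + 4 * ρ) with hK3
  have hK10 : 0 < K1 := by positivity
  have hK20 : 0 < K2 := by positivity
  have hK30 : 0 < K3 := by positivity
  refine ⟨2 * ((δ ^ 2 + 2 * δ) * ρ / η) + 2 * (ρ / η * B) + 2 * ((1 + δ) / (2 * η)) +
    K1 * K2 * K3 + 2 * (1 + δ) * C, by positivity, ?_⟩
  intro p J D hp ht hlD hlD' hd hJ hρJ htp
  set x : ℝ := (p : ℝ) with hx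
  set t := log x with htd
  have hx0 : 0 < x := by linarith
  have hX : 0 < x ^ (1 / 2 + 2 * θ) := rpow_pos_of_pos hx0 _
  set X := x ^ (1 / 2 + 2 * θ) with hXd
  set W : ℝ := log 2 + t + (δ * t + A) with hW
  set E : ℝ := W * (4 * ρ * x ^ δ / η +
    C * √x * t ^ 2 * (x ^ (2 * θ) + 4 * ρ * x ^ δ * (1 + t) ^ 3)) with hE
  have hterm : ∀ j ∈ range J, Real.log (2 * x * ρ ^ (j + 1)) *
        ((2 * x / ρ ^ j - 2 * x / ρ ^ (j + 1) + 1) * (2 * x * ρ ^ (j + 1)) /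
            (2 * (x - 1) * Real.log D) +
          C * √x * t ^ 2 * ((D : ℝ) ^ 2 + (2 * ρ ^ (j + 1)) * (1 + Real.log D) ^ 3)) ≤
      (log 2 + t + ((j : ℝ) + 1) * L) * (2 * (ρ - 1) * (x + 2) / (η * t)) + E := by
    intro j hj
    have hj' : j + 1 ≤ J := by simpa using hj
    have hρj : 0 < ρ ^ (j + 1) := by positivity
    have hρj0 : 0 < ρ ^ j := by positivity
    have e1 : log (2 * x * ρ ^ (j + 1)) = log 2 + t + ((j : ℝ) + 1) * L := by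
      rw [log_mul (by positivity) hρj.ne', log_mul (by norm_num) hx0.ne', log_pow]
      push_cast
      ring
    have e2 : (2 * x / ρ ^ j - 2 * x / ρ ^ (j + 1) + 1) * (2 * x * ρ ^ (j + 1)) =
        4 * x ^ 2 * (ρ - 1) + 2 * x * ρ ^ (j + 1) := by
      rw [pow_succ]
      field_simp
      ring
    rw [e1, e2]
    have hcast : ((j : ℝ) + 1) ≤ J := by exact_mod_cast hj'
    have hjL : ((j : ℝ) + 1) * L ≤ δ * t + A :=
      (mul_le_mul_of_nonneg_right hcast hL.le).trans hJ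
    refine term_le hC hρ hη hp ht hlD hlD' hd hρj ?_ (by positivity) ?_
    · refine le_trans ?_ hρJ
      exact pow_le_pow_right₀ hρ.le hj'
    · rw [hW]
      linarith
  have hsum := sum_le_sum hterm
  rw [sum_add_distrib, sum_const, card_range, ← sum_mul, sum_add_distrib, sum_const, card_range,
    ← sum_mul, sum_succ_cast, nsmul_eq_mul, nsmul_eq_mul] at hsum
  have hu : 0 ≤ (J : ℝ) * L := by positivity
  have hmain := main_le hδ hρ hη hp ht hL hL' hA hu hJ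
  have hJL : (J : ℝ) * L / L = J := by field_simp
  rw [hJL, ← hB] at hmain
  have hJ1 : (J : ℝ) ≤ K1 * (1 + t) := by
    rw [hK1, div_mul_eq_mul_div, le_div_iff₀ hL]
    nlinarith
  have hW1 : W ≤ K2 * (1 + t) := by
    rw [hW, hK2]
    nlinarith
  have herr := err_le (ρ := ρ) (δ := δ) hC hρ hη hθ hδθ hp ht
  have hEn : 0 ≤ 4 * ρ * x ^ δ / η +
      C * √x * t ^ 2 * (x ^ (2 * θ) + 4 * ρ * x ^ δ * (1 + t) ^ 3) := by
    have h1 : 0 ≤ x ^ (2 * θ) := rpow_nonneg hx0.le _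
    have h2 : 0 ≤ x ^ δ := rpow_nonneg hx0.le _
    positivity
  have hW0 : 0 ≤ W := by positivity
  have hJE : (J : ℝ) * E ≤ K1 * K2 * K3 * (X * (1 + t) ^ 7) := by
    rw [hE]
    calc (J : ℝ) * (W * (4 * ρ * x ^ δ / η +
          C * √x * t ^ 2 * (x ^ (2 * θ) + 4 * ρ * x ^ δ * (1 + t) ^ 3)))
        ≤ (K1 * (1 + t)) * ((K2 * (1 + t)) * (K3 * (X * (1 + t) ^ 5))) := by gcongr
      _ = _ := by ring
  have hlast := last_le (δ := δ) (d := (D : ℝ)) hC hη hδ hδθ hp ht hlD hlD' hd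
  have h67 : X * (1 + t) ^ 6 ≤ X * (1 + t) ^ 7 := by
    gcongr
    · linarith
    · norm_num
  have hx2 : x + 2 ≤ 2 * x := by linarith
  have hc0 : 0 < (δ ^ 2 + 2 * δ) * ρ / η := by positivity
  have m1 : ρ / η * ((δ ^ 2 + 2 * δ) * t + B) * (x + 2) ≤ (δ ^ 2 + 2 * δ) * ρ / η * x * t +
      (2 * ((δ ^ 2 + 2 * δ) * ρ / η) + 2 * (ρ / η * B)) * x := by
    have k1 : ρ / η * ((δ ^ 2 + 2 * δ) * t + B) * (x + 2) = (δ ^ 2 + 2 * δ) * ρ / η * x * t +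
      2 * ((δ ^ 2 + 2 * δ) * ρ / η) * t + (ρ / η * B) * (x + 2) := by ring
    have k2 : 2 * ((δ ^ 2 + 2 * δ) * ρ / η) * t ≤ 2 * ((δ ^ 2 + 2 * δ) * ρ / η) * x := by gcongr
    have k3 : (ρ / η * B) * (x + 2) ≤ (ρ / η * B) * (2 * x) := by
      have : 0 < ρ / η * B := by positivity
      gcongr
    rw [k1]
    linarith
  have m2 : (1 + δ) / (2 * η) * (x + 2) ≤ (1 + δ) / (2 * η) * (2 * x) := by gcongr
  have m3 : 2 * (1 + δ) * C * (X * (1 + t) ^ 6) ≤ 2 * (1 + δ) * C * (X * (1 + t) ^ 7) := by gcongr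
  have hXT : 0 ≤ X * (1 + t) ^ 7 := by positivity
  have hfin : (ρ / η * ((δ ^ 2 + 2 * δ) * t + B) * (x + 2)) + K1 * K2 * K3 * (X * (1 + t) ^ 7) +
      ((1 + δ) / (2 * η) * (x + 2) + 2 * (1 + δ) * C * (X * (1 + t) ^ 6)) ≤
      (δ ^ 2 + 2 * δ) * ρ / η * x * t + (2 * ((δ ^ 2 + 2 * δ) * ρ / η) + 2 * (ρ / η * B) +
        2 * ((1 + δ) / (2 * η)) + K1 * K2 * K3 + 2 * (1 + δ) * C) * (x + X * (1 + t) ^ 7) := by
    have q1 : 0 ≤ (2 * ((δ ^ 2 + 2 * δ) * ρ / η) + 2 * (ρ / η * B) + 2 * ((1 + δ) / (2 * η))) *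
      (X * (1 + t) ^ 7) := by positivity
    have q2 : 0 ≤ (K1 * K2 * K3 + 2 * (1 + δ) * C) * x := by positivity
    calc _ ≤ ((δ ^ 2 + 2 * δ) * ρ / η * x * t +
        (2 * ((δ ^ 2 + 2 * δ) * ρ / η) + 2 * (ρ / η * B)) * x) + K1 * K2 * K3 * (X * (1 + t) ^ 7) +
          ((1 + δ) / (2 * η) * (2 * x) + 2 * (1 + δ) * C * (X * (1 + t) ^ 7)) := by
          gcongr
      _ ≤ ((δ ^ 2 + 2 * δ) * ρ / η * x * t +
        (2 * ((δ ^ 2 + 2 * δ) * ρ / η) + 2 * (ρ / η * B)) * x) + K1 * K2 * K3 * (X * (1 + t) ^ 7) +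
          ((1 + δ) / (2 * η) * (2 * x) + 2 * (1 + δ) * C * (X * (1 + t) ^ 7)) +
          ((2 * ((δ ^ 2 + 2 * δ) * ρ / η) + 2 * (ρ / η * B) + 2 * ((1 + δ) / (2 * η))) *
            (X * (1 + t) ^ 7) + (K1 * K2 * K3 + 2 * (1 + δ) * C) * x) :=
          le_add_of_nonneg_right (add_nonneg q1 q2)
      _ = _ := by ring
  refine le_trans (add_le_add (hsum.trans ?_) hlast) hfin
  have e3 : ((J : ℝ) * (log 2 + t) + (J : ℝ) * (J + 1) / 2 * L) * (2 * (ρ - 1) * (x + 2) / (η * t)) =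
      ((J : ℝ) * (log 2 + t) + L * ((J : ℝ) * (J + 1) / 2)) * (2 * (ρ - 1) * (x + 2) / (η * t)) := by
    ring
  rw [e3]
  exact add_le_add hmain hJE

/-- Brick ASY. -/
theorem t_ASY : ASY := by
  intro δ C hδ hq hC
  set q : ℝ := δ ^ 2 + 2 * δ with hqd
  have hq0 : 0 < q := by positivity
  have h1q : 1 < 1 / (2 * q) := by
    rw [lt_div_iff₀ (by positivity)]
    linarith
  set ρ : ℝ := (1 + 1 / (2 * q)) / 2 with hρd
  have hρ : 1 < ρ := by rw [hρd]; linarith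
  have hρ2 : ρ < 1 / (2 * q) := by rw [hρd]; linarith
  have hqρ : q * ρ < 1 / 2 := by
    have := mul_lt_mul_of_pos_left hρ2 hq0
    have e : q * (1 / (2 * q)) = 1 / 2 := by field_simp
    linarith
  set η : ℝ := (q * ρ / 2 + 1 / 4) / 2 with hηd
  have hqρ0 : 0 < q * ρ := by positivity
  have hη : 0 < η := by rw [hηd]; linarith
  have hη1 : η < 1 / 4 := by rw [hηd]; linarith
  have hη2 : q * ρ / 2 < η := by rw [hηd]; linarith
  set θ : ℝ := (η + 1 / 4) / 2 with hθd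
  have hθ1 : θ < 1 / 4 := by rw [hθd]; linarith
  have hθη : η < θ := by rw [hθd]; linarith
  have hθ8 : 1 / 8 ≤ θ := by rw [hθd]; linarith
  have hθ : 0 < θ := by linarith
  have hδ4 : δ < 1 / 4 := by nlinarith
  have hδθ : δ ≤ 2 * θ := by linarith
  set c : ℝ := q * ρ / η with hcd
  have hc2 : c < 2 := by
    rw [hcd, div_lt_iff₀ hη]
    linarith
  obtain ⟨K, hK, hmain⟩ := total_le hC hρ hη hθ hδ hδθ
  have hL : 0 < log ρ := log_pos hρ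
  have hl2 : 0 < log 2 := log_pos (by norm_num)
  -- large `x`
  have hlog : Tendsto log atTop atTop := tendsto_log_atTop
  have ev1 : ∀ᶠ x : ℝ in atTop, x ^ (1 / 2 + 2 * θ) * (1 + log x) ^ 7 ≤ x := by
    have hs : 0 < 1 - (1 / 2 + 2 * θ) := by linarith
    have h := isLittleO_log_rpow_atTop (r := (1 - (1 / 2 + 2 * θ)) / 7) (by positivity)
    have h2 := h.bound (show (0 : ℝ) < 1 / 2 by norm_num)
    filter_upwards [h2, eventually_ge_atTop (1 : ℝ),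
      hlog.eventually_ge_atTop 1] with x hx hx1 hx2
    have hx0 : 0 < x := by linarith
    rw [Real.norm_eq_abs, Real.norm_eq_abs, abs_of_nonneg (by linarith),
      abs_of_nonneg (rpow_nonneg hx0.le _)] at hx
    have h3 : 1 + log x ≤ x ^ ((1 - (1 / 2 + 2 * θ)) / 7) := by linarith
    have h4 : (1 + log x) ^ 7 ≤ (x ^ ((1 - (1 / 2 + 2 * θ)) / 7)) ^ 7 := by gcongr
    have h5 : (x ^ ((1 - (1 / 2 + 2 * θ)) / 7)) ^ 7 = x ^ (1 - (1 / 2 + 2 * θ)) := by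
      rw [← rpow_natCast, ← rpow_mul hx0.le]
      congr 1
      push_cast
      ring
    rw [h5] at h4
    calc x ^ (1 / 2 + 2 * θ) * (1 + log x) ^ 7 ≤ x ^ (1 / 2 + 2 * θ) * x ^ (1 - (1 / 2 + 2 * θ)) := by
          gcongr
      _ = x := by
        rw [← rpow_add hx0]
        norm_num
  have ev2 : ∀ᶠ x : ℝ in atTop, (2 : ℝ) ≤ x ∧ 1 ≤ log x ∧ log 2 ≤ (θ - η) * log x ∧
      log 2 ≤ θ * log x ∧ 4 * K / (2 - c) ≤ log x ∧
      x ^ (1 / 2 + 2 * θ) * (1 + log x) ^ 7 ≤ x := by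
    have h1 : Tendsto (fun x => (θ - η) * log x) atTop atTop := hlog.const_mul_atTop (by linarith)
    have h2 : Tendsto (fun x => θ * log x) atTop atTop := hlog.const_mul_atTop hθ
    filter_upwards [ev1, eventually_ge_atTop (2 : ℝ), hlog.eventually_ge_atTop 1,
      h1.eventually_ge_atTop (log 2), h2.eventually_ge_atTop (log 2),
      hlog.eventually_ge_atTop (4 * K / (2 - c))] with x a1 a2 a3 a4 a5 a6
    exact ⟨a2, a3, a4, a5, a6, a1⟩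
  obtain ⟨N, hN⟩ := eventually_atTop.1 (tendsto_natCast_atTop_atTop.eventually ev2)
  refine ⟨ρ, (2 - c) / 2, N, hρ, by linarith, ?_⟩
  intro p hp
  obtain ⟨b1, b2, b3, b4, b5, b6⟩ := hN p hp
  set x : ℝ := (p : ℝ) with hx
  have hx0 : 0 < x := by linarith
  have hx1 : 1 ≤ x := by linarith
  set t := log x with ht
  have hxθ : x ^ θ = exp (θ * t) := by rw [rpow_def_of_pos hx0, mul_comm]
  have hxθ2 : 2 ≤ x ^ θ := by
    rw [hxθ, ← exp_log (show (0 : ℝ) < 2 by norm_num)]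
    exact exp_le_exp.2 b4
  have hfl : x ^ θ < ⌊x ^ θ⌋₊ + 1 := Nat.lt_floor_add_one _
  have hfl' : (⌊x ^ θ⌋₊ : ℝ) ≤ x ^ θ := Nat.floor_le (by positivity)
  have hfl2 : x ^ θ / 2 ≤ ⌊x ^ θ⌋₊ := by linarith
  have hD0 : (0 : ℝ) < ⌊x ^ θ⌋₊ := by linarith
  have hxθx : x ^ θ ≤ x := by
    calc x ^ θ ≤ x ^ (1 : ℝ) := rpow_le_rpow_of_exponent_le hx1 (by linarith)
      _ = x := rpow_one x
  have hJ : (δ * t + log 2) / log ρ ≤ ⌈(δ * t + log 2) / log ρ⌉₊ := Nat.le_ceil _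
  have hJ' : (⌈(δ * t + log 2) / log ρ⌉₊ : ℝ) < (δ * t + log 2) / log ρ + 1 :=
    Nat.ceil_lt_add_one (by positivity)
  set J := ⌈(δ * t + log 2) / log ρ⌉₊ with hJd
  have hρJ : ρ ^ J = exp (J * log ρ) := by
    rw [mul_comm, exp_mul, exp_log (by linarith), rpow_natCast]
  have hxδ : x ^ δ = exp (δ * t) := by rw [rpow_def_of_pos hx0, mul_comm]
  have hJ1 : δ * t + log 2 ≤ J * log ρ := (div_le_iff₀ hL).1 hJ
  have hJ2 : J * log ρ ≤ δ * t + (log 2 + log ρ) := by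
    have := mul_lt_mul_of_pos_right hJ' hL
    have e : ((δ * t + log 2) / log ρ + 1) * log ρ = δ * t + (log 2 + log ρ) := by
      field_simp
      ring
    linarith
  refine ⟨J, ⌊x ^ θ⌋₊, ?_, ?_, ?_, ?_⟩
  · exact Nat.le_floor (by exact_mod_cast hxθ2)
  · have : (⌊x ^ θ⌋₊ : ℝ) ≤ x := hfl'.trans hxθx
    have h2 : ⌊x ^ θ⌋₊ ≤ p := Nat.cast_le.1 (this.trans_eq hx)
    omega
  · rw [hρJ, hxδ]
    have e : (2 : ℝ) * exp (δ * t) = exp (δ * t + log 2) := by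
      rw [exp_add, exp_log (by norm_num)]
      ring
    rw [e]
    exact exp_le_exp.2 hJ1
  · have hlD : η * t ≤ log (⌊x ^ θ⌋₊ : ℝ) := by
      have h1 : log (x ^ θ / 2) ≤ log (⌊x ^ θ⌋₊ : ℝ) := log_le_log (by positivity) hfl2
      rw [log_div (by positivity) (by norm_num), log_rpow hx0] at h1
      have h3 : (θ - η) * t = θ * t - η * t := by ring
      rw [h3] at b3
      linarith
    have hlD' : log (⌊x ^ θ⌋₊ : ℝ) ≤ t := log_le_log hD0 (hfl'.trans hxθx)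
    have hd : ((⌊x ^ θ⌋₊ : ℕ) : ℝ) ^ 2 ≤ x ^ (2 * θ) := by
      calc ((⌊x ^ θ⌋₊ : ℕ) : ℝ) ^ 2 ≤ (x ^ θ) ^ 2 := by gcongr
        _ = x ^ (2 * θ) := by
          rw [← rpow_natCast, ← rpow_mul hx0.le]
          congr 1
          push_cast
          ring
    have hρJ2 : ρ ^ J ≤ 2 * ρ * x ^ δ := by
      rw [hρJ, hxδ]
      have e : (2 : ℝ) * ρ * exp (δ * t) = exp (δ * t + (log 2 + log ρ)) := by
        rw [exp_add, exp_add, exp_log (by norm_num), exp_log (by linarith)]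
        ring
      rw [e]
      exact exp_le_exp.2 hJ2
    have htx : t ≤ x := (log_le_sub_one_of_pos hx0).trans (by linarith)
    have h := hmain p J ⌊x ^ θ⌋₊ b1 b2 hlD hlD' hd hJ2 hρJ2 htx
    refine h.trans ?_
    have h2c : 0 < 2 - c := by linarith
    have h5 : 4 * K ≤ t * (2 - c) := (div_le_iff₀ h2c).1 b5
    have h6 : K * (x + x ^ (1 / 2 + 2 * θ) * (1 + t) ^ 7) ≤ K * (x + x) := by gcongr
    have h7 : 4 * K * x ≤ t * (2 - c) * x := by gcongr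
    calc c * x * t + K * (x + x ^ (1 / 2 + 2 * θ) * (1 + t) ^ 7) ≤ c * x * t + K * (x + x) := by
          linarith
      _ ≤ (2 - (2 - c) / 2) * x * t := by nlinarith

end Pool.Agent.K3h77.LP
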